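import Mathlib

/-!
# The limit preorder on finitely generated groups: definitions
-/

set_option autoImplicit false

namespace Pool.Agent.H79Pre

/-- `G` preforms `H`: some generating tuple `t` of `H` is the limit of generating tuples `s n` of
`G`, that is, every word is a relation of `t` if and only if it is a relation of `s n` for all
large `n`. -/
def Preforms (G H : Type) [Group G] [Group H] : Prop :=
  ∃ (k : ℕ) (t : Fin k → H) (s : ℕ → Fin k → G), Subgroup.closure (Set.range t) = ⊤ ∧
    (∀ n, Subgroup.closure (Set.range (s n)) = ⊤) ∧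
    ∀ w : FreeGroup (Fin k), ∀ᶠ n in Filter.atTop,
      (FreeGroup.lift (s n) w = 1 ↔ FreeGroup.lift t w = 1)

/-- Two groups are adjacent if one of them preforms the other. -/
def Adj (G H : Type) [Group G] [Group H] : Prop := Preforms G H ∨ Preforms H G

/-- There is a chain with `l` steps from `G` to `H`. -/
def DistLE (l : ℕ) (G H : Type) [Group G] [Group H] : Prop :=
  ∃ A : ℕ → GrpCat.{0}, Nonempty (A 0 ≃* G) ∧ Nonempty (A l ≃* H) ∧
    ∀ i < l, Adj (A i) (A (i + 1))

/-- `A` has a finite presentation. -/
def FinPres (A : Type) [Group A] : Prop :=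
  ∃ (k : ℕ) (R : Finset (FreeGroup (Fin k))),
    Nonempty (PresentedGroup (R : Set (FreeGroup (Fin k))) ≃* A)

/-- `G` is isomorphic to a direct product of some group and `E`. -/
def HasFactor (E G : Type) [Group E] [Group G] : Prop :=
  ∃ (C : Type) (_ : Group C), Nonempty (G ≃* C × E)

/-- `G` is isomorphic to a direct product of some solvable group and `E`. -/
def SolvFactor (E G : Type) [Group E] [Group G] : Prop :=
  ∃ (C : Type) (_ : Group C), IsSolvable C ∧ Nonempty (G ≃* C × E)

/-- `E` is a homomorphic image of `G`. -/
def Onto (G E : Type) [Group G] [Group E] : Prop := ∃ f : G →* E, Function.Surjective f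

end Pool.Agent.H79Pre
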