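import Pool.Agent.H79Pre.Defs

set_option autoImplicit false

namespace Pool.Agent.H79Pre

theorem quotient_of_preforms {X A : Type} [Group X] [Group A] (hA : FinPres A)
    (h : Preforms X A) : Onto A X := by
  obtain ⟨m, R, ⟨φ⟩⟩ := hA
  obtain ⟨k, t, s, ht, hs, hw⟩ := h
  let ψ : FreeGroup (Fin m) →* A :=
    (φ : PresentedGroup (R : Set (FreeGroup (Fin m))) →* A).comp (PresentedGroup.mk _)
  have hψ : Function.Surjective ψ := φ.surjective.comp (PresentedGroup.mk_surjective _)
  have hts : Function.Surjective (FreeGroup.lift t) := by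
    rw [← MonoidHom.range_eq_top, FreeGroup.range_lift_eq_closure, ht]
  choose v hv using fun j : Fin m => hts (ψ (FreeGroup.of j))
  choose u hu using fun i : Fin k => hψ (t i)
  have hV : (FreeGroup.lift t).comp (FreeGroup.lift v) = ψ := by
    refine FreeGroup.ext_hom _ _ fun j => ?_
    simp [hv]
  have hR : ∀ᶠ n in Filter.atTop, ∀ r ∈ R, FreeGroup.lift (s n) (FreeGroup.lift v r) = 1 := by
    rw [Filter.eventually_all_finset]
    intro r hr
    filter_upwards [hw (FreeGroup.lift v r)] with n hn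
    rw [hn]
    have h1 : FreeGroup.lift t (FreeGroup.lift v r) = ψ r := DFunLike.congr_fun hV r
    rw [h1]
    have h2 : PresentedGroup.mk (R : Set (FreeGroup (Fin m))) r = 1 :=
      PresentedGroup.one_of_mem hr
    change φ (PresentedGroup.mk (R : Set (FreeGroup (Fin m))) r) = 1
    rw [h2, map_one]
  have hU : ∀ᶠ n in Filter.atTop, ∀ i, FreeGroup.lift (s n)
      (FreeGroup.lift v (u i) * (FreeGroup.of i)⁻¹) = 1 := by
    rw [Filter.eventually_all]
    intro i
    filter_upwards [hw (FreeGroup.lift v (u i) * (FreeGroup.of i)⁻¹)] with n hn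
    rw [hn]
    have h1 : FreeGroup.lift t (FreeGroup.lift v (u i)) = ψ (u i) := DFunLike.congr_fun hV (u i)
    rw [map_mul, h1, hu, map_inv, FreeGroup.lift_apply_of, mul_inv_cancel]
  obtain ⟨n, hRn, hUn⟩ := (hR.and hU).exists
  let F : FreeGroup (Fin m) →* X := (FreeGroup.lift (s n)).comp (FreeGroup.lift v)
  have hF : F = FreeGroup.lift (fun j => FreeGroup.lift (s n) (v j)) := by
    refine FreeGroup.ext_hom _ _ fun j => ?_
    simp [F]
  have hrel : ∀ r ∈ (R : Set (FreeGroup (Fin m))),
      FreeGroup.lift (fun j => FreeGroup.lift (s n) (v j)) r = 1 := by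
    intro r hr
    rw [← hF]
    exact hRn r hr
  let g : PresentedGroup (R : Set (FreeGroup (Fin m))) →* X := PresentedGroup.toGroup hrel
  refine ⟨g.comp (φ.symm : A →* PresentedGroup (R : Set (FreeGroup (Fin m)))), ?_⟩
  have hg : g.comp (PresentedGroup.mk _) = F := by
    rw [hF]
    refine FreeGroup.ext_hom _ _ fun j => ?_
    rw [FreeGroup.lift_apply_of]
    exact PresentedGroup.toGroup.of hrel
  rw [← MonoidHom.range_eq_top, eq_top_iff, ← hs n, Subgroup.closure_le]
  rintro _ ⟨i, rfl⟩
  refine ⟨t i, ?_⟩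
  have h1 : (φ.symm : A →* PresentedGroup (R : Set (FreeGroup (Fin m)))) (t i) = PresentedGroup.mk _ (u i) := by
    rw [← hu i]
    exact φ.symm_apply_apply _
  rw [MonoidHom.comp_apply, h1]
  have h2 : g (PresentedGroup.mk _ (u i)) = F (u i) := DFunLike.congr_fun hg (u i)
  rw [h2]
  have h3 := hUn i
  rw [map_mul, map_inv, FreeGroup.lift_apply_of, mul_inv_eq_one] at h3
  exact h3

end Pool.Agent.H79Pre
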