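import Pool.Agent.H79Pre.Defs

set_option autoImplicit false

namespace Pool.Agent.H79Pre

theorem split {W E : Type} [Group W] [Group E] (hE : Subgroup.center E = ⊥) (D : Subgroup W)
    (e : D ≃* E) (hD : ∀ w : W, ∃ d ∈ D, ∀ v ∈ D, w * v * w⁻¹ = d * v * d⁻¹) :
    Nonempty (W ≃* Subgroup.centralizer (D : Set W) × E) := by
  have hcomm : ∀ (c : Subgroup.centralizer (D : Set W)) (d : D),
      Commute ((Subgroup.centralizer (D : Set W)).subtype c) (D.subtype d) := by
    intro c d
    exact ((Subgroup.mem_centralizer_iff.1 c.2) d.1 d.2).symm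
  let f : Subgroup.centralizer (D : Set W) × D →* W :=
    MonoidHom.noncommCoprod _ _ hcomm
  have hf : ∀ c d, f (c, d) = c.1 * d.1 := fun c d => rfl
  have hinj : Function.Injective f := by
    rw [injective_iff_map_eq_one]
    rintro ⟨c, d⟩ h
    rw [hf] at h
    have hcd : c.1 = d.1⁻¹ := eq_inv_of_mul_eq_one_left h
    have hdc : e d ∈ Subgroup.center E := by
      rw [Subgroup.mem_center_iff]
      intro x
      obtain ⟨v, rfl⟩ := e.surjective x
      rw [← map_mul, ← map_mul]
      congr 1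
      apply Subtype.ext
      have h1 := (Subgroup.mem_centralizer_iff.1 c.2) v.1 v.2
      rw [hcd] at h1
      have h2 : v.1 * d.1 = d.1 * v.1 := by
        have h3 : Commute v.1 (d.1⁻¹) := h1
        have h4 := h3.inv_right
        rw [inv_inv] at h4
        exact h4.eq
      exact h2
    rw [hE, Subgroup.mem_bot] at hdc
    have hd : d = 1 := by
      apply e.injective
      rw [hdc, map_one]
    subst hd
    have hc : c = 1 := by
      apply Subtype.ext
      rw [hcd]; simp
    rw [hc]; rfl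
  have hsurj : Function.Surjective f := by
    intro w
    obtain ⟨d, hd, hw⟩ := hD w
    have hmem : w * d⁻¹ ∈ Subgroup.centralizer (D : Set W) := by
      rw [Subgroup.mem_centralizer_iff]
      intro v hv
      have h1 := hw (d⁻¹ * v * d) (D.mul_mem (D.mul_mem (D.inv_mem hd) hv) hd)
      have h2 : w * d⁻¹ * v * (w * d⁻¹)⁻¹ = v := by
        calc w * d⁻¹ * v * (w * d⁻¹)⁻¹ = w * (d⁻¹ * v * d) * w⁻¹ := by group
          _ = d * (d⁻¹ * v * d) * d⁻¹ := h1
          _ = v := by group
      rw [mul_inv_eq_iff_eq_mul] at h2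
      exact h2.symm
    refine ⟨(⟨w * d⁻¹, hmem⟩, ⟨d, hd⟩), ?_⟩
    rw [hf]
    simp
  have e1 : Subgroup.centralizer (D : Set W) × D ≃* W := MulEquiv.ofBijective f ⟨hinj, hsurj⟩
  exact ⟨e1.symm.trans (MulEquiv.prodCongr (MulEquiv.refl _) e)⟩

end Pool.Agent.H79Pre
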