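import Pool.Agent.H79Pre.Defs
import Pool.Agent.H79Pre.P3

set_option autoImplicit false

namespace Pool.Agent.H79Pre



theorem factor_of_preforms {Z Y E : Type} [Group Z] [Group Y] [Group E] [Finite E]
    (hE : Subgroup.center E = ⊥) (h : Preforms Z Y) (hY : HasFactor E Y) : HasFactor E Z := by
  obtain ⟨k, t, s, ht, hs, hev⟩ := h
  obtain ⟨C, instC, ⟨φ⟩⟩ := hY
  have htsurj : Function.Surjective (FreeGroup.lift t) := by
    rw [← MonoidHom.range_eq_top, FreeGroup.range_lift_eq_closure, ht]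
  have hv' : ∀ e : E, ∃ v : FreeGroup (Fin k), FreeGroup.lift t v = φ.symm (1, e) :=
    fun e => htsurj _
  choose v hv using hv'
  have h1 : ∀ᶠ n in Filter.atTop, ∀ p : E × E,
      FreeGroup.lift (s n) (v p.1 * v p.2 * (v (p.1 * p.2))⁻¹) = 1 := by
    rw [Filter.eventually_all]
    intro p
    filter_upwards [hev (v p.1 * v p.2 * (v (p.1 * p.2))⁻¹)] with n hn
    rw [hn, map_mul, map_mul, map_inv, hv, hv, hv, mul_inv_eq_one, ← map_mul, Prod.mk_mul_mk, one_mul]
  have h2 : ∀ᶠ n in Filter.atTop, ∀ e : E, e ≠ 1 → FreeGroup.lift (s n) (v e) ≠ 1 := by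
    rw [Filter.eventually_all]
    intro e
    filter_upwards [hev (v e)] with n hn he h
    rw [hn, hv] at h
    have h3 := (map_eq_one_iff φ.symm φ.symm.injective).1 h
    exact he (congrArg Prod.snd h3)
  have h3 : ∀ᶠ n in Filter.atTop, ∀ p : Fin k × E,
      FreeGroup.lift (s n) (FreeGroup.of p.1 * v p.2 * (FreeGroup.of p.1)⁻¹ *
        (v (φ (t p.1)).2 * v p.2 * (v (φ (t p.1)).2)⁻¹)⁻¹) = 1 := by
    rw [Filter.eventually_all]
    intro p
    filter_upwards [hev (FreeGroup.of p.1 * v p.2 * (FreeGroup.of p.1)⁻¹ *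
        (v (φ (t p.1)).2 * v p.2 * (v (φ (t p.1)).2)⁻¹)⁻¹)] with n hn
    rw [hn, map_mul, map_inv, mul_inv_eq_one]
    simp only [map_mul, map_inv, hv, FreeGroup.lift_apply_of]
    apply φ.injective
    simp only [map_mul, map_inv, MulEquiv.apply_symm_apply]
    apply Prod.ext
    · simp
    · simp
  obtain ⟨n, hn1, hn2, hn3⟩ := (h1.and (h2.and h3)).exists
  let f : E →* Z := MonoidHom.mk' (fun e => FreeGroup.lift (s n) (v e)) (by
    intro a b
    have := hn1 (a, b)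
    rw [map_mul, map_mul, map_inv, mul_inv_eq_one] at this
    exact this.symm)
  have hf : Function.Injective f := by
    rw [injective_iff_map_eq_one]
    intro e he
    by_contra hne
    exact hn2 e hne he
  have hD : ∀ w : Z, ∃ d ∈ f.range, ∀ v ∈ f.range, w * v * w⁻¹ = d * v * d⁻¹ := by
    intro w
    have hw : w ∈ Subgroup.closure (Set.range (s n)) := by rw [hs n]; trivial
    induction hw using Subgroup.closure_induction with
    | mem x hx =>
      obtain ⟨i, rfl⟩ := hx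
      refine ⟨f (φ (t i)).2, ⟨_, rfl⟩, ?_⟩
      rintro _ ⟨e, rfl⟩
      have := hn3 (i, e)
      rw [map_mul, map_inv, mul_inv_eq_one] at this
      simp only [map_mul, map_inv, FreeGroup.lift_apply_of] at this
      exact this
    | one => exact ⟨1, one_mem _, fun v _ => rfl⟩
    | mul x y _ _ ihx ihy =>
      obtain ⟨d1, hd1, hx⟩ := ihx
      obtain ⟨d2, hd2, hy⟩ := ihy
      refine ⟨d1 * d2, mul_mem hd1 hd2, fun v hv => ?_⟩
      have e1 := hx (d2 * v * d2⁻¹) (mul_mem (mul_mem hd2 hv) (inv_mem hd2))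
      calc x * y * v * (x * y)⁻¹ = x * (y * v * y⁻¹) * x⁻¹ := by group
        _ = x * (d2 * v * d2⁻¹) * x⁻¹ := by rw [hy v hv]
        _ = d1 * (d2 * v * d2⁻¹) * d1⁻¹ := e1
        _ = d1 * d2 * v * (d1 * d2)⁻¹ := by group
    | inv x _ ih =>
      obtain ⟨d, hd, hx⟩ := ih
      refine ⟨d⁻¹, inv_mem hd, fun v hv => ?_⟩
      have e1 := hx (d⁻¹ * v * d) (mul_mem (mul_mem (inv_mem hd) hv) hd)
      have e2 : x * (d⁻¹ * v * d) * x⁻¹ = v := by
        rw [e1]; group
      calc x⁻¹ * v * x⁻¹⁻¹ = x⁻¹ * (x * (d⁻¹ * v * d) * x⁻¹) * x⁻¹⁻¹ := by rw [e2]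
        _ = d⁻¹ * v * d⁻¹⁻¹ := by group
  obtain ⟨Ψ⟩ := split hE f.range (MonoidHom.ofInjective hf).symm hD
  exact ⟨Subgroup.centralizer (f.range : Set Z), inferInstance, ⟨Ψ⟩⟩

end Pool.Agent.H79Pre
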