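import Pool.Agent.H79Pre.Defs
import Pool.Agent.H79Pre.P3

set_option autoImplicit false

namespace Pool.Agent.H79Pre

theorem solvFactor_of_preforms {Y W E : Type} [Group Y] [Group W] [Group E] [Finite E]
    (hE : Subgroup.center E = ⊥) (hperf : commutator E = ⊤) (h : Preforms Y W)
    (hY : SolvFactor E Y) : SolvFactor E W := by
  obtain ⟨k, t, s, ht, hs, hev⟩ := h
  obtain ⟨C, instC, hC, ⟨φ⟩⟩ := hY
  obtain ⟨d, hd⟩ := hC.solvable
  obtain ⟨e, he⟩ := Finite.exists_infinite_fiber (fun n : ℕ => fun i : Fin k => (φ (s n i)).2)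
  have hfreq : ∃ᶠ n in Filter.atTop, (fun i : Fin k => (φ (s n i)).2) = e := by
    rw [Nat.frequently_atTop_iff_infinite]
    exact Set.infinite_coe_iff.1 he
  have hlift : ∀ n, (fun i : Fin k => (φ (s n i)).2) = e → ∀ w : FreeGroup (Fin k),
      (φ (FreeGroup.lift (s n) w)).2 = FreeGroup.lift e w := by
    intro n hn w
    have h1 : ((MonoidHom.snd C E).comp (φ.toMonoidHom.comp (FreeGroup.lift (s n)))) =
        FreeGroup.lift e := by
      refine FreeGroup.ext_hom _ _ fun i => ?_
      rw [← hn]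
      simp
    exact DFunLike.congr_fun h1 w
  have hK1 : ∀ u ∈ derivedSeries (FreeGroup (Fin k)) d,
      (FreeGroup.lift t u = 1 ↔ FreeGroup.lift e u = 1) := by
    intro u hu
    obtain ⟨n, hn, hn'⟩ := (hfreq.and_eventually (hev u)).exists
    rw [← hn', ← hlift n hn u]
    constructor
    · intro h1
      rw [h1, map_one]
      rfl
    · intro h2
      have h3 : ((MonoidHom.fst C E).comp (φ.toMonoidHom.comp (FreeGroup.lift (s n)))) u ∈
          derivedSeries C d :=
        map_derivedSeries_le_derivedSeries _ d (Subgroup.mem_map_of_mem _ hu)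
      rw [hd, Subgroup.mem_bot] at h3
      have h4 : φ (FreeGroup.lift (s n) u) = 1 := Prod.ext h3 h2
      exact (map_eq_one_iff φ φ.injective).1 h4
  have hperf' : ∀ m, derivedSeries E m = ⊤ := by
    intro m
    induction m with
    | zero => rfl
    | succ m ih => rw [derivedSeries_succ, ih]; exact hperf
  have hesurj : Function.Surjective (FreeGroup.lift e) := by
    obtain ⟨n, hn⟩ := hfreq.exists
    have h1 : Function.Surjective (FreeGroup.lift (s n)) := by
      rw [← MonoidHom.range_eq_top, FreeGroup.range_lift_eq_closure, hs n]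
    intro x
    obtain ⟨y, hy⟩ := φ.surjective (1, x)
    obtain ⟨w, hw⟩ := h1 y
    refine ⟨w, ?_⟩
    rw [← hlift n hn w, hw, hy]
  have htsurj : Function.Surjective (FreeGroup.lift t) := by
    rw [← MonoidHom.range_eq_top, FreeGroup.range_lift_eq_closure, ht]
  have hQe : ∀ x : E, ∃ u ∈ derivedSeries (FreeGroup (Fin k)) d, FreeGroup.lift e u = x := by
    intro x
    have h1 : x ∈ (derivedSeries (FreeGroup (Fin k)) d).map (FreeGroup.lift e) := by
      rw [map_derivedSeries_eq hesurj d, hperf' d]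
      trivial
    exact h1
  have hDW : derivedSeries W d = (derivedSeries (FreeGroup (Fin k)) d).map (FreeGroup.lift t) :=
    (map_derivedSeries_eq htsurj d).symm
  let α : derivedSeries (FreeGroup (Fin k)) d →* W :=
    (FreeGroup.lift t).comp (derivedSeries (FreeGroup (Fin k)) d).subtype
  let β : derivedSeries (FreeGroup (Fin k)) d →* E :=
    (FreeGroup.lift e).comp (derivedSeries (FreeGroup (Fin k)) d).subtype
  have hker : α.ker = β.ker := by
    ext x
    rw [MonoidHom.mem_ker, MonoidHom.mem_ker]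
    exact hK1 x x.2
  have hβ : Function.Surjective β := by
    intro x
    obtain ⟨u, hu, hux⟩ := hQe x
    exact ⟨⟨u, hu⟩, hux⟩
  let ι : α.range ≃* E :=
    (QuotientGroup.quotientKerEquivRange α).symm.trans
      ((QuotientGroup.quotientMulEquivOfEq hker).trans
        (QuotientGroup.quotientKerEquivOfSurjective β hβ))
  have hrange : α.range = derivedSeries W d := by
    rw [hDW]
    ext x
    constructor
    · rintro ⟨q, rfl⟩
      exact ⟨q, q.2, rfl⟩
    · rintro ⟨q, hq, rfl⟩
      exact ⟨⟨q, hq⟩, rfl⟩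
  have hD : ∀ w : W, ∃ d ∈ α.range, ∀ v ∈ α.range, w * v * w⁻¹ = d * v * d⁻¹ := by
    intro w
    obtain ⟨g, rfl⟩ := htsurj w
    obtain ⟨u, hu, hug⟩ := hQe (FreeGroup.lift e g)
    refine ⟨FreeGroup.lift t u, ⟨⟨u, hu⟩, rfl⟩, ?_⟩
    rintro _ ⟨⟨q, hq⟩, rfl⟩
    have h1 : g * q * g⁻¹ * (u * q * u⁻¹)⁻¹ ∈ derivedSeries (FreeGroup (Fin k)) d :=
      mul_mem ((derivedSeries_normal _ d).conj_mem q hq g)
        (inv_mem ((derivedSeries_normal _ d).conj_mem q hq u))
    have h2 : FreeGroup.lift e (g * q * g⁻¹ * (u * q * u⁻¹)⁻¹) = 1 := by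
      simp only [map_mul, map_inv, hug]
      group
    have h3 := (hK1 _ h1).2 h2
    rw [map_mul, map_inv, mul_inv_eq_one, map_mul, map_mul, map_mul, map_mul, map_inv, map_inv] at h3
    exact h3
  obtain ⟨Ψ⟩ := split hE α.range ι hD
  refine ⟨Subgroup.centralizer (α.range : Set W), inferInstance, ⟨⟨d, ?_⟩⟩, ⟨Ψ⟩⟩
  rw [Subgroup.eq_bot_iff_forall]
  intro x hx
  have h1 : (x : W) ∈ α.range :=
    hrange.ge (map_derivedSeries_le_derivedSeries
      (Subgroup.centralizer (α.range : Set W)).subtype d (Subgroup.mem_map_of_mem _ hx))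
  have h2 : ι ⟨x, h1⟩ ∈ Subgroup.center E := by
    rw [Subgroup.mem_center_iff]
    intro y
    obtain ⟨z, rfl⟩ := ι.surjective y
    rw [← map_mul, ← map_mul]
    congr 1
    apply Subtype.ext
    have h3 := Subgroup.mem_centralizer_iff.1 x.2 z z.2
    exact h3
  rw [hE, Subgroup.mem_bot] at h2
  have h4 := (map_eq_one_iff ι ι.injective).1 h2
  have h5 : (x : W) = 1 := congrArg Subtype.val h4
  exact Subtype.ext h5

end Pool.Agent.H79Pre
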