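import Pool.Agent.H79Pre.Defs

set_option autoImplicit false

namespace Pool.Agent.H79Pre

theorem prod_key {G E : Type} [Group G] [Group E] {k m : ℕ} (a : Fin k → G) (e : Fin m → E)
    (w : FreeGroup (Fin (k + m))) :
    FreeGroup.lift (Fin.append (fun i => ((a i, 1) : G × E)) (fun j => ((1, e j) : G × E))) w =
      (FreeGroup.lift a (FreeGroup.lift (Fin.append (fun i => FreeGroup.of i) (fun _ => 1)) w),
        FreeGroup.lift e (FreeGroup.lift (Fin.append (fun _ => 1) (fun j => FreeGroup.of j)) w)) := by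
  have h : FreeGroup.lift (Fin.append (fun i => ((a i, 1) : G × E)) (fun j => ((1, e j) : G × E))) =
      MonoidHom.prod
        ((FreeGroup.lift a).comp (FreeGroup.lift (Fin.append (fun i => FreeGroup.of i) (fun _ => 1))))
        ((FreeGroup.lift e).comp
          (FreeGroup.lift (Fin.append (fun _ => 1) (fun j => FreeGroup.of j)))) := by
    refine FreeGroup.ext_hom _ _ fun i => ?_
    refine Fin.addCases (fun i => ?_) (fun i => ?_) i
    · simp
    · simp
  rw [h]
  rfl

theorem prod_gen {G E : Type} [Group G] [Group E] {k m : ℕ} (a : Fin k → G) (e : Fin m → E)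
    (ha : Subgroup.closure (Set.range a) = ⊤) (he : Subgroup.closure (Set.range e) = ⊤) :
    Subgroup.closure (Set.range
      (Fin.append (fun i => ((a i, 1) : G × E)) (fun j => ((1, e j) : G × E)))) = ⊤ := by
  rw [← FreeGroup.range_lift_eq_closure] at ha he ⊢
  rw [MonoidHom.range_eq_top] at ha he ⊢
  rintro ⟨g, x⟩
  obtain ⟨u, rfl⟩ := ha g
  obtain ⟨v, rfl⟩ := he x
  have h1 : FreeGroup.lift (Fin.append (fun i => ((a i, 1) : G × E)) (fun j => ((1, e j) : G × E)))
      (FreeGroup.map (Fin.castAdd m) u) = (FreeGroup.lift a u, 1) := by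
    have : (FreeGroup.lift (Fin.append (fun i => ((a i, 1) : G × E))
        (fun j => ((1, e j) : G × E)))).comp (FreeGroup.map (Fin.castAdd m)) =
          (MonoidHom.inl G E).comp (FreeGroup.lift a) := by
      refine FreeGroup.ext_hom _ _ fun i => ?_
      simp
    exact DFunLike.congr_fun this u
  have h2 : FreeGroup.lift (Fin.append (fun i => ((a i, 1) : G × E)) (fun j => ((1, e j) : G × E)))
      (FreeGroup.map (Fin.natAdd k) v) = (1, FreeGroup.lift e v) := by
    have : (FreeGroup.lift (Fin.append (fun i => ((a i, 1) : G × E))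
        (fun j => ((1, e j) : G × E)))).comp (FreeGroup.map (Fin.natAdd k)) =
          (MonoidHom.inr G E).comp (FreeGroup.lift e) := by
      refine FreeGroup.ext_hom _ _ fun i => ?_
      simp
    exact DFunLike.congr_fun this v
  refine ⟨FreeGroup.map (Fin.castAdd m) u * FreeGroup.map (Fin.natAdd k) v, ?_⟩
  rw [map_mul, h1, h2]
  simp

theorem preforms_prod {G H E : Type} [Group G] [Group H] [Group E] [Finite E]
    (h : Preforms G H) : Preforms (G × E) (H × E) := by
  obtain ⟨k, t, s, ht, hs, hw⟩ := h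
  obtain ⟨m, e, he⟩ : ∃ (m : ℕ) (e : Fin m → E), Subgroup.closure (Set.range e) = ⊤ := by
    obtain ⟨m, ⟨φ⟩⟩ := Finite.exists_equiv_fin E
    refine ⟨m, φ.symm, ?_⟩
    rw [φ.symm.surjective.range_eq]
    exact Subgroup.closure_univ
  refine ⟨k + m, Fin.append (fun i => (t i, 1)) (fun j => (1, e j)),
    fun n => Fin.append (fun i => (s n i, 1)) (fun j => (1, e j)),
    prod_gen t e ht he, fun n => prod_gen (s n) e (hs n) he, fun w => ?_⟩
  filter_upwards [hw (FreeGroup.lift (Fin.append (fun i => FreeGroup.of i) (fun _ => 1)) w)]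
    with n hn
  rw [prod_key, prod_key, Prod.mk_eq_one, Prod.mk_eq_one, hn]

theorem distLE_prod {G H E : Type} [Group G] [Group H] [Group E] [Finite E] {l : ℕ}
    (h : DistLE l G H) : DistLE l (G × E) (H × E) := by
  obtain ⟨X, ⟨x0⟩, ⟨xl⟩, hX⟩ := h
  refine ⟨fun i => GrpCat.of (X i × E), ⟨MulEquiv.prodCongr x0 (MulEquiv.refl E)⟩,
    ⟨MulEquiv.prodCongr xl (MulEquiv.refl E)⟩, ?_⟩
  intro i hi
  rcases hX i hi with h | h
  · exact Or.inl (preforms_prod h)
  · exact Or.inr (preforms_prod h)

end Pool.Agent.H79Pre
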