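import Pool.Agent.H79Pre.Defs

set_option autoImplicit false

namespace Pool.Agent.H79Pre

namespace FreeProd

/-- the shift by `k` of the second coordinate -/
def shE (J : Type) (k : ℤ) : J × ℤ ≃ J × ℤ := Equiv.prodCongr (Equiv.refl J) (Equiv.addRight k)

theorem shE_apply {J : Type} (k : ℤ) (p : J × ℤ) : shE J k p = (p.1, p.2 + k) := rfl

/-- the shift as an action of `ℤ` on the free group -/
def sh (J : Type) : Multiplicative ℤ →* MulAut (FreeGroup (J × ℤ)) where
  toFun k := FreeGroup.freeGroupCongr (shE J k.toAdd)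
  map_one' := by
    apply MulEquiv.toMonoidHom_injective
    apply FreeGroup.ext_hom
    intro p
    simp [shE_apply]
  map_mul' a b := by
    apply MulEquiv.toMonoidHom_injective
    apply FreeGroup.ext_hom
    intro p
    simp [shE_apply, MulAut.mul_apply, add_comm, add_left_comm]

theorem sh_of {J : Type} (k : Multiplicative ℤ) (p : J × ℤ) :
    sh J k (FreeGroup.of p) = FreeGroup.of (p.1, p.2 + k.toAdd) := by
  show FreeGroup.freeGroupCongr (shE J k.toAdd) (FreeGroup.of p) = _
  simp [shE_apply]

/-- the semidirect product -/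
abbrev S (J : Type) : Type := FreeGroup (J × ℤ) ⋊[sh J] Multiplicative ℤ

variable (m : ℕ)

/-- the map to the semidirect product -/
def Psi : FreeGroup (Fin (2 + m)) →* S (Fin (2 + m)) :=
  FreeGroup.lift fun c => if c.val = 1 then SemidirectProduct.inr (Multiplicative.ofAdd 1)
    else SemidirectProduct.inl (FreeGroup.of (c, 0))

/-- the letter `y` -/
def yl : Fin (2 + m) := ⟨1, by omega⟩

/-- the left inverse -/
def Lam : S (Fin (2 + m)) →* FreeGroup (Fin (2 + m)) :=
  SemidirectProduct.lift
    (FreeGroup.lift fun p => (FreeGroup.of (yl m)) ^ p.2 * FreeGroup.of p.1 *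
      ((FreeGroup.of (yl m)) ^ p.2)⁻¹)
    (zpowersHom _ (FreeGroup.of (yl m)))
    (by
      intro g
      apply FreeGroup.ext_hom
      intro p
      simp only [MonoidHom.comp_apply, MulEquiv.coe_toMonoidHom, sh_of, FreeGroup.lift_apply_of,
        MulAut.conj_apply, zpowersHom_apply]
      rw [add_comm p.2, zpow_add]
      group)

theorem Lam_Psi (w : FreeGroup (Fin (2 + m))) : Lam m (Psi m w) = w := by
  have h : (Lam m).comp (Psi m) = MonoidHom.id _ := by
    apply FreeGroup.ext_hom
    intro c
    simp only [MonoidHom.comp_apply, Psi, FreeGroup.lift_apply_of, MonoidHom.id_apply]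
    split_ifs with hc
    · have : c = yl m := Fin.ext hc
      rw [this]
      simp [Lam]
    · simp [Lam]
  exact DFunLike.congr_fun h w

/-- the map of the second semidirect product -/
def Psi2 : FreeGroup (Fin 2) →* S Unit :=
  FreeGroup.lift fun c => if c = 1 then SemidirectProduct.inr (Multiplicative.ofAdd 1)
    else SemidirectProduct.inl (FreeGroup.of ((), 0))

variable {m}

/-- the substitution of the letters -/
def th (n : ℕ) (p : Fin (2 + m) × ℤ) : Unit × ℤ := ((), p.2 + n * (p.1.val : ℤ))

/-- the map of the semidirect products -/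
def Th (n : ℕ) : S (Fin (2 + m)) →* S Unit :=
  SemidirectProduct.map (FreeGroup.map (th n)) (MonoidHom.id _) (by
    intro g
    apply FreeGroup.ext_hom
    intro p
    simp only [MonoidHom.comp_apply, MulEquiv.coe_toMonoidHom, sh_of, FreeGroup.map.of,
      MonoidHom.id_apply, th]
    congr 2
    ring)

/-- the substitution -/
def phi (n : ℕ) (c : Fin (2 + m)) : FreeGroup (Fin 2) :=
  if c.val = 1 then FreeGroup.of 1 else
    FreeGroup.of 1 ^ ((n : ℤ) * (c.val : ℤ)) * FreeGroup.of 0 *
      (FreeGroup.of 1 ^ ((n : ℤ) * (c.val : ℤ)))⁻¹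

theorem Psi2_phi (n : ℕ) (w : FreeGroup (Fin (2 + m))) :
    Psi2 (FreeGroup.lift (phi n) w) = Th n (Psi m w) := by
  have h : Psi2.comp (FreeGroup.lift (phi n)) = (Th n).comp (Psi m) := by
    apply FreeGroup.ext_hom
    intro c
    simp only [MonoidHom.comp_apply, Psi, FreeGroup.lift_apply_of, phi]
    split_ifs with hc
    · simp [Psi2, Th]
    · rw [map_mul, map_mul, map_inv, map_zpow]
      have h1 : Psi2 (FreeGroup.of 1) = SemidirectProduct.inr (Multiplicative.ofAdd 1) := by
        simp [Psi2]
      have h0 : Psi2 (FreeGroup.of 0) = SemidirectProduct.inl (FreeGroup.of ((), 0)) := by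
        simp [Psi2]
      rw [h1, h0, ← map_zpow, ← map_inv, ← SemidirectProduct.inl_aut, sh_of]
      unfold Th
      rw [SemidirectProduct.map_inl, FreeGroup.map.of]
      simp [th, ← ofAdd_zsmul, mul_comm]
  exact DFunLike.congr_fun h w

theorem map_th_inj (v : FreeGroup (Fin (2 + m) × ℤ)) :
    ∃ N : ℕ, ∀ n ≥ N, FreeGroup.map (th n) v = 1 → v = 1 := by
  classical
  set L := v.toWord with hL
  set B : ℕ := L.toFinset.sup fun l => l.1.2.natAbs with hB
  refine ⟨2 * B + 1, fun n hn h => ?_⟩
  set T : Set (Fin (2 + m) × ℤ) := {p | ∃ b, (p, b) ∈ L} with hT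
  have hbd : ∀ p ∈ T, |p.2| ≤ (B : ℤ) := by
    rintro p ⟨b, hp⟩
    have h1 : (p, b) ∈ L.toFinset := List.mem_toFinset.2 hp
    have h2 := Finset.le_sup (f := fun l : (Fin (2 + m) × ℤ) × Bool => l.1.2.natAbs) h1
    have h3 : p.2.natAbs ≤ B := h2
    rw [Int.abs_eq_natAbs]
    exact_mod_cast h3
  have hinj : Set.InjOn (th n) T := by
    rintro ⟨c, a⟩ hp ⟨c', a'⟩ hq hpq
    have h1 := hbd _ hp
    have h2 := hbd _ hq
    simp only at h1 h2
    rw [abs_le] at h1 h2
    have h3 : a + n * (c.val : ℤ) = a' + n * (c'.val : ℤ) := congrArg Prod.snd hpq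
    have hn' : (2 * B + 1 : ℤ) ≤ n := by exact_mod_cast hn
    have h4 : (c.val : ℤ) = c'.val := by
      rcases lt_trichotomy (c.val : ℤ) c'.val with h5 | h5 | h5
      · nlinarith
      · exact h5
      · nlinarith
    have h6 : c = c' := Fin.ext (by exact_mod_cast h4)
    subst h6
    have h7 : a = a' := by linarith
    rw [h7]
  have hne : Nonempty (Fin (2 + m) × ℤ) := ⟨(⟨0, by omega⟩, 0)⟩
  set r := Function.invFunOn (th n) T with hr
  have hrt : ∀ p ∈ T, r (th n p) = p := fun p hp => hinj.leftInvOn_invFunOn hp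
  have h8 : FreeGroup.map r (FreeGroup.map (th n) v) = v := by
    have h9 : v = FreeGroup.mk L := FreeGroup.mk_toWord.symm
    rw [h9, FreeGroup.map.mk, FreeGroup.map.mk, List.map_map]
    congr 1
    conv_rhs => rw [← List.map_id L]
    refine List.map_congr_left ?_
    rintro ⟨p, b⟩ hp
    have h10 := hrt p ⟨b, hp⟩
    simp [h10]
  rw [← h8, h, map_one]

theorem phi_ne {w : FreeGroup (Fin (2 + m))} (hw : w ≠ 1) :
    ∃ N : ℕ, ∀ n ≥ N, FreeGroup.lift (phi n) w ≠ 1 := by
  obtain ⟨N, hN⟩ := map_th_inj (Psi m w).left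
  refine ⟨N, fun n hn h => hw ?_⟩
  have h1 := Psi2_phi n w
  rw [h, map_one] at h1
  have h2 : (Th n (Psi m w)).left = 1 := by rw [← h1]; rfl
  have h3 : (Th n (Psi m w)).right = 1 := by rw [← h1]; rfl
  have h4 : (Psi m w).left = 1 := hN n hn h2
  have h5 : (Psi m w).right = 1 := h3
  have h6 : Psi m w = 1 := SemidirectProduct.ext h4 h5
  rw [← Lam_Psi m w, h6, map_one]

end FreeProd

open FreeProd in
theorem free_prod {E : Type} [Group E] {m : ℕ} (e : Fin m → E)
    (he : Subgroup.closure (Set.range e) = ⊤) :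
    Preforms (FreeGroup (Fin 2) × E) (FreeGroup (Fin (2 + m))) := by
  classical
  set ec : Fin (2 + m) → E := fun c => if h : 2 ≤ c.val then e ⟨c.val - 2, by omega⟩ else 1
    with hec
  refine ⟨2 + m, FreeGroup.of, fun n c => (phi n c, ec c), ?_, fun n => ?_, fun w => ?_⟩
  · exact FreeGroup.closure_range_of _
  · set K := Subgroup.closure (Set.range fun c : Fin (2 + m) => (phi n c, ec c)) with hK
    have hx : ((FreeGroup.of 0, 1) : FreeGroup (Fin 2) × E) ∈ K := by
      refine Subgroup.subset_closure ⟨⟨0, by omega⟩, ?_⟩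
      simp [phi, hec]
    have hy : ((FreeGroup.of 1, 1) : FreeGroup (Fin 2) × E) ∈ K := by
      refine Subgroup.subset_closure ⟨⟨1, by omega⟩, ?_⟩
      simp [phi, hec]
    have hF : ∀ g : FreeGroup (Fin 2), ((g, 1) : FreeGroup (Fin 2) × E) ∈ K := by
      intro g
      have h1 : g ∈ K.comap (MonoidHom.inl (FreeGroup (Fin 2)) E) := by
        have h2 : (⊤ : Subgroup (FreeGroup (Fin 2))) ≤
            K.comap (MonoidHom.inl (FreeGroup (Fin 2)) E) := by
          rw [← FreeGroup.closure_range_of, Subgroup.closure_le]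
          rintro _ ⟨i, rfl⟩
          fin_cases i
          · exact hx
          · exact hy
        exact h2 (Subgroup.mem_top g)
      exact h1
    have hE : ∀ a : E, ((1, a) : FreeGroup (Fin 2) × E) ∈ K := by
      intro a
      have h2 : (⊤ : Subgroup E) ≤ K.comap (MonoidHom.inr (FreeGroup (Fin 2)) E) := by
        rw [← he, Subgroup.closure_le]
        rintro _ ⟨i, rfl⟩
        show ((1, e i) : FreeGroup (Fin 2) × E) ∈ K
        have h3 : (phi n (⟨2 + i.val, by omega⟩ : Fin (2 + m)), e i) ∈ K := by
          refine Subgroup.subset_closure ⟨⟨2 + i.val, by omega⟩, ?_⟩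
          simp [hec]
        have h4 := K.mul_mem (K.inv_mem (hF (phi n (⟨2 + i.val, by omega⟩ : Fin (2 + m))))) h3
        simpa using h4
      exact h2 (Subgroup.mem_top a)
    rw [eq_top_iff]
    rintro ⟨g, a⟩ _
    have h5 := K.mul_mem (hF g) (hE a)
    simpa using h5
  · have ht : FreeGroup.lift (FreeGroup.of : Fin (2 + m) → FreeGroup (Fin (2 + m))) w = w := by
      have : FreeGroup.lift (FreeGroup.of : Fin (2 + m) → FreeGroup (Fin (2 + m))) =
          MonoidHom.id _ := by
        apply FreeGroup.ext_hom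
        intro c
        simp
      rw [this]
      rfl
    rw [ht]
    by_cases hw : w = 1
    · subst hw
      simp
    · obtain ⟨N, hN⟩ := phi_ne hw
      filter_upwards [Filter.eventually_ge_atTop N] with n hn
      refine iff_of_false (fun h => hN n hn ?_) hw
      have h1 : FreeGroup.lift (phi n) w =
          (MonoidHom.fst (FreeGroup (Fin 2)) E) (FreeGroup.lift (fun c => (phi n c, ec c)) w) := by
        have h2 : FreeGroup.lift (phi n) = (MonoidHom.fst (FreeGroup (Fin 2)) E).comp
            (FreeGroup.lift fun c => (phi n c, ec c)) := by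
          apply FreeGroup.ext_hom
          intro c
          simp
        rw [h2]
        rfl
      rw [h1, h, map_one]

end Pool.Agent.H79Pre
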