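import Pool.Agent.H79Pre.P1
import Pool.Agent.H79Pre.P2
import Pool.Agent.H79Pre.P3
import Pool.Agent.H79Pre.P4
import Pool.Agent.H79Pre.P5
import Pool.Agent.H79Pre.P6
import Pool.Agent.H79Pre.P7
import Pool.Agent.Helper376.FP

set_option autoImplicit false

namespace Pool.Agent.H79Pre

theorem preforms_congr {G G' H H' : Type} [Group G] [Group G'] [Group H] [Group H']
    (eG : G ≃* G') (eH : H ≃* H') (h : Preforms G H) : Preforms G' H' := by
  obtain ⟨k, t, s, ht, hs, hw⟩ := h
  refine ⟨k, fun i => eH (t i), fun n i => eG (s n i), ?_, ?_, ?_⟩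
  · have h1 : Set.range (fun i => eH (t i)) = (eH : H →* H') '' Set.range t := by
      rw [← Set.range_comp]; rfl
    rw [h1, ← MonoidHom.map_closure, ht]
    exact Subgroup.map_top_of_surjective _ eH.surjective
  · intro n
    have h1 : Set.range (fun i => eG (s n i)) = (eG : G →* G') '' Set.range (s n) := by
      rw [← Set.range_comp]; rfl
    rw [h1, ← MonoidHom.map_closure, hs n]
    exact Subgroup.map_top_of_surjective _ eG.surjective
  · intro w
    have h1 : ∀ (x : Fin k → G), FreeGroup.lift (fun i => eG (x i)) w = eG (FreeGroup.lift x w) := by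
      intro x
      have : FreeGroup.lift (fun i => eG (x i)) = (eG : G →* G').comp (FreeGroup.lift x) := by
        ext i; simp
      rw [this]; rfl
    have h2 : FreeGroup.lift (fun i => eH (t i)) w = eH (FreeGroup.lift t w) := by
      have : FreeGroup.lift (fun i => eH (t i)) = (eH : H →* H').comp (FreeGroup.lift t) := by
        ext i; simp
      rw [this]; rfl
    filter_upwards [hw w] with n hn
    rw [h1, h2, map_eq_one_iff eG eG.injective, map_eq_one_iff eH eH.injective]
    exact hn

theorem adj_congr {G G' H H' : Type} [Group G] [Group G'] [Group H] [Group H']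
    (eG : G ≃* G') (eH : H ≃* H') (h : Adj G H) : Adj G' H' := by
  rcases h with h | h
  · exact Or.inl (preforms_congr eG eH h)
  · exact Or.inr (preforms_congr eH eG h)

theorem adj_symm {G H : Type} [Group G] [Group H] (h : Adj G H) : Adj H G := Or.symm h

theorem finPres_of_fp {A : Type} [Group A] (h : Group.IsFinitelyPresented A) : FinPres A := by
  obtain ⟨n, s, hs, ⟨e⟩⟩ := h.exists_mulEquiv_presentedGroup
  refine ⟨n, hs.toFinset, ?_⟩
  rw [Set.Finite.coe_toFinset]
  exact ⟨e.symm⟩

theorem fp_of_prod {A E : Type} [Group A] [Group E] [Finite E] (h : Group.IsFinitelyPresented A) :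
    Group.IsFinitelyPresented (A × E) := by
  obtain ⟨n, f, hf, -⟩ := h.out
  have hcl : Subgroup.closure (Set.range fun i => f (FreeGroup.of i)) = ⊤ := by
    have h1 : (Set.range fun i => f (FreeGroup.of i)) = f '' Set.range FreeGroup.of := by
      rw [← Set.range_comp]; rfl
    rw [h1, ← MonoidHom.map_closure, FreeGroup.closure_range_of]
    exact Subgroup.map_top_of_surjective _ hf
  exact Helper376.DL.fp_prod (Set.finite_range _) (Set.finite_univ (α := E)) hcl
    Subgroup.closure_univ

theorem derivedSeries_perfect {E : Type} [Group E] (hperf : commutator E = ⊤) (n : ℕ) :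
    derivedSeries E n = ⊤ := by
  induction n with
  | zero => rfl
  | succ n ih => rw [derivedSeries_succ, ih]; exact hperf

theorem not_onto_of_solvable {X E : Type} [Group X] [Group E] [Nontrivial E]
    (hperf : commutator E = ⊤) (hX : Group.IsSolvable X) : ¬ Onto X E := by
  rintro ⟨f, hf⟩
  haveI : Group.IsSolvable E := Group.isSolvable_of_surjective hf
  obtain ⟨n, hn⟩ := (inferInstance : Group.IsSolvable E)
  rw [derivedSeries_perfect hperf n] at hn
  exact top_ne_bot hn

theorem onto_of_hasFactor {X E : Type} [Group X] [Group E] (h : HasFactor E X) : Onto X E := by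
  obtain ⟨C, _, ⟨φ⟩⟩ := h
  exact ⟨(MonoidHom.snd C E).comp (φ : X →* C × E),
    Prod.snd_surjective.comp φ.surjective⟩

theorem hasFactor_of_solvFactor {X E : Type} [Group X] [Group E] (h : SolvFactor E X) :
    HasFactor E X := by
  obtain ⟨C, _, -, hφ⟩ := h
  exact ⟨C, _, hφ⟩

theorem solvable_of_adj {A X : Type} [Group A] [Group X] (hA : FinPres A) (hS : Group.IsSolvable A)
    (h : Adj A X) : Group.IsSolvable X := by
  rcases h with h | h
  · exact solvable_of_preforms h hS
  · obtain ⟨f, hf⟩ := quotient_of_preforms hA h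
    haveI : Group.IsSolvable A := hS
    exact Group.isSolvable_of_surjective hf

theorem not_onto_of_adj {X Y E : Type} [Group X] [Group Y] [Group E] [Finite E] [Nontrivial E]
    (hperf : commutator E = ⊤) (hX : Group.IsSolvable X) (h : Adj X Y) : ¬ Onto Y E := by
  rcases h with h | h
  · exact not_onto_of_solvable hperf (solvable_of_preforms h hX)
  · intro hY
    exact not_onto_of_solvable hperf hX (onto_of_preforms h hY)

theorem sep {X Y E : Type} [Group X] [Group Y] [Group E] [Finite E]
    (hE : Subgroup.center E = ⊥) (hX : ¬ Onto X E) (hY : HasFactor E Y) : ¬ Adj X Y := by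
  rintro (h | h)
  · exact hX (onto_of_hasFactor (factor_of_preforms hE h hY))
  · exact hX (onto_of_preforms h (onto_of_hasFactor hY))

theorem solvable_of_onto_prod {A C E : Type} [Group A] [Group C] [Group E] [Finite E]
    (hperf : commutator E = ⊤) (hS : Group.IsSolvable A) (g : A × E →* C × E)
    (hg : Function.Surjective g) : Group.IsSolvable C := by
  obtain ⟨d, hd⟩ := hS
  refine ⟨d, ?_⟩
  have hmap : (derivedSeries (A × E) d).map g = derivedSeries (C × E) d :=
    map_derivedSeries_eq hg d
  have hfst : ∀ x ∈ derivedSeries (A × E) d, x.1 = 1 := by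
    intro x hx
    have h1 : (MonoidHom.fst A E) x ∈ (derivedSeries (A × E) d).map (MonoidHom.fst A E) :=
      ⟨x, hx, rfl⟩
    have h2 := map_derivedSeries_le_derivedSeries (MonoidHom.fst A E) d h1
    rw [hd, Subgroup.mem_bot] at h2
    exact h2
  have hinj : Function.Injective (fun x : derivedSeries (A × E) d => x.1.2) := by
    intro x y hxy
    apply Subtype.ext
    apply Prod.ext
    · rw [hfst x.1 x.2, hfst y.1 y.2]
    · exact hxy
  haveI : Finite (derivedSeries (A × E) d) := Finite.of_injective _ hinj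
  let q : derivedSeries (A × E) d → derivedSeries (C × E) d :=
    fun x => ⟨g x.1, by rw [← hmap]; exact ⟨x.1, x.2, rfl⟩⟩
  have hq : Function.Surjective q := by
    rintro ⟨y, hy⟩
    rw [← hmap] at hy
    obtain ⟨x, hx, rfl⟩ := hy
    exact ⟨⟨x, hx⟩, rfl⟩
  haveI : Finite (derivedSeries (C × E) d) := Finite.of_surjective q hq
  have hcard : Nat.card (derivedSeries (C × E) d) ≤ Nat.card E :=
    (Nat.card_le_card_of_surjective q hq).trans (Nat.card_le_card_of_injective _ hinj)
  have hsurj : Function.Surjective (fun x : derivedSeries (C × E) d => x.1.2) := by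
    intro e
    have h1 : (MonoidHom.inr C E) e ∈ derivedSeries (C × E) d := by
      apply map_derivedSeries_le_derivedSeries (MonoidHom.inr C E) d
      refine ⟨e, ?_, rfl⟩
      rw [derivedSeries_perfect hperf]
      trivial
    exact ⟨⟨_, h1⟩, rfl⟩
  have hbij := hsurj.bijective_of_nat_card_le hcard
  rw [eq_bot_iff]
  intro c hc
  have h1 : (MonoidHom.inl C E) c ∈ derivedSeries (C × E) d :=
    map_derivedSeries_le_derivedSeries (MonoidHom.inl C E) d ⟨c, hc, rfl⟩
  have h2 := @hbij.1 ⟨_, h1⟩ ⟨1, one_mem _⟩ rfl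
  have h3 := congrArg (fun x : derivedSeries (C × E) d => x.1.1) h2
  exact h3

theorem solvFactor_of_adj_prod {A W E : Type} [Group A] [Group W] [Group E] [Finite E]
    (hE : Subgroup.center E = ⊥) (hperf : commutator E = ⊤)
    (hA : Group.IsFinitelyPresented A) (hS : Group.IsSolvable A) (h : Adj W (A × E)) :
    SolvFactor E W := by
  rcases h with h | h
  · obtain ⟨C, _, ⟨φ⟩⟩ := factor_of_preforms hE h ⟨A, inferInstance, ⟨MulEquiv.refl _⟩⟩
    obtain ⟨f, hf⟩ := quotient_of_preforms (finPres_of_fp (fp_of_prod hA)) h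
    exact ⟨C, _, solvable_of_onto_prod hperf hS ((φ : W →* C × E).comp f)
      (φ.surjective.comp hf), ⟨φ⟩⟩
  · exact solvFactor_of_preforms hE hperf h ⟨A, inferInstance, hS, ⟨MulEquiv.refl _⟩⟩

theorem hasFactor_of_adj {Y Z E : Type} [Group Y] [Group Z] [Group E] [Finite E]
    (hE : Subgroup.center E = ⊥) (hperf : commutator E = ⊤)
    (hY : SolvFactor E Y) (h : Adj Z Y) : HasFactor E Z := by
  rcases h with h | h
  · exact factor_of_preforms hE h (hasFactor_of_solvFactor hY)
  · exact hasFactor_of_solvFactor (solvFactor_of_preforms hE hperf h hY)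

/-- Six steps are needed from `A` to `A × E`. -/
theorem lower {A E : Type} [Group A] [Group E] [Finite E] [Nontrivial E]
    (hE : Subgroup.center E = ⊥) (hperf : commutator E = ⊤)
    (hA : Group.IsFinitelyPresented A) (hS : Group.IsSolvable A) (l : ℕ) (hl : l < 6) :
    ¬ DistLE l A (A × E) := by
  rintro ⟨X, ⟨e0⟩, ⟨el⟩, hX⟩
  -- properties of the start
  have s0 : Group.IsSolvable (X 0) := by
    haveI : Group.IsSolvable _ := hS
    exact Group.isSolvable_of_surjective (f := (e0.symm : A →* X 0)) e0.symm.surjective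
  have n0 : ¬ Onto (X 0) E := not_onto_of_solvable hperf s0
  have s1 : 0 < l → Group.IsSolvable (X 1) := fun h =>
    solvable_of_adj (finPres_of_fp hA) hS (adj_congr e0 (MulEquiv.refl _) (hX 0 h))
  have n1 : 0 < l → ¬ Onto (X 1) E := fun h => not_onto_of_solvable hperf (s1 h)
  have n2 : 1 < l → ¬ Onto (X 2) E := fun h => not_onto_of_adj hperf (s1 (by omega)) (hX 1 h)
  -- properties of the end
  have f0 : SolvFactor E (X l) := ⟨A, inferInstance, hS, ⟨el⟩⟩
  have f1 : ∀ i, i + 1 = l → SolvFactor E (X i) := by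
    rintro i rfl
    exact solvFactor_of_adj_prod hE hperf hA hS
      (adj_congr (MulEquiv.refl _) el (hX i (Nat.lt_succ_self i)))
  have f2 : ∀ i, i + 2 = l → HasFactor E (X i) := by
    rintro i rfl
    exact hasFactor_of_adj hE hperf (f1 (i + 1) rfl) (hX i (by omega))
  interval_cases l
  · exact n0 (onto_of_hasFactor (hasFactor_of_solvFactor f0))
  · exact n0 (onto_of_hasFactor (hasFactor_of_solvFactor (f1 0 rfl)))
  · exact n0 (onto_of_hasFactor (f2 0 rfl))
  · exact n1 (by norm_num) (onto_of_hasFactor (f2 1 rfl))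
  · exact n2 (by norm_num) (onto_of_hasFactor (f2 2 rfl))
  · exact sep hE (n2 (by norm_num)) (f2 3 rfl) (hX 2 (by norm_num))

theorem distLE_of_adj {G H : Type} [Group G] [Group H] (h : Adj G H) : DistLE 1 G H := by
  refine ⟨fun i => if i = 0 then GrpCat.of G else GrpCat.of H, ⟨?_⟩, ⟨?_⟩, ?_⟩
  · simpa using MulEquiv.refl G
  · simpa using MulEquiv.refl H
  · intro i hi
    obtain rfl : i = 0 := by omega
    simpa using h

/-- Concatenation of chains. -/
theorem distLE_trans {G H K : Type} [Group G] [Group H] [Group K] {a b : ℕ}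
    (h1 : DistLE a G H) (h2 : DistLE b H K) : DistLE (a + b) G K := by
  obtain ⟨X, ⟨x0⟩, ⟨xa⟩, hX⟩ := h1
  obtain ⟨Y, ⟨y0⟩, ⟨yb⟩, hY⟩ := h2
  obtain ⟨Z, hZ1, hZ2⟩ : ∃ Z : ℕ → GrpCat.{0}, (∀ i, i ≤ a → Z i = X i) ∧
      (∀ i, a < i → Z i = Y (i - a)) := by
    refine ⟨fun i => if i ≤ a then X i else Y (i - a), ?_, ?_⟩
    · intro i hi
      simp [hi]
    · intro i hi
      have : ¬ i ≤ a := by omega
      simp [this]
  refine ⟨Z, ?_, ?_, ?_⟩
  · rw [hZ1 0 (Nat.zero_le _)]
    exact ⟨x0⟩
  · rcases Nat.eq_zero_or_pos b with rfl | hb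
    · rw [add_zero, hZ1 a le_rfl]
      exact ⟨xa.trans (y0.symm.trans yb)⟩
    · rw [hZ2 (a + b) (by omega), Nat.add_sub_cancel_left]
      exact ⟨yb⟩
  · intro i hi
    rcases lt_trichotomy i a with h | h | h
    · rw [hZ1 i h.le, hZ1 (i + 1) h]
      exact hX i h
    · subst h
      rw [hZ1 i le_rfl, hZ2 (i + 1) (by omega), Nat.add_sub_cancel_left]
      exact adj_congr (y0.trans xa.symm) (MulEquiv.refl _) (hY 0 (by omega))
    · have h3 : i + 1 - a = (i - a) + 1 := by omega
      rw [hZ2 i h, hZ2 (i + 1) (by omega), h3]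
      exact hY (i - a) (by omega)

theorem distLE_congr {G G' H H' : Type} [Group G] [Group G'] [Group H] [Group H'] {l : ℕ}
    (eG : G ≃* G') (eH : H ≃* H') (h : DistLE l G H) : DistLE l G' H' := by
  obtain ⟨X, ⟨x0⟩, ⟨xl⟩, hX⟩ := h
  exact ⟨X, ⟨x0.trans eG⟩, ⟨xl.trans eH⟩, hX⟩

theorem distLE_free_prod {E : Type} [Group E] [Finite E] :
    ∃ l, DistLE l (FreeGroup (Fin 2) × E) (FreeGroup (Fin 2)) := by
  obtain ⟨m, e, he⟩ : ∃ (m : ℕ) (e : Fin m → E), Subgroup.closure (Set.range e) = ⊤ := by
    obtain ⟨m, ⟨φ⟩⟩ := Finite.exists_equiv_fin E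
    refine ⟨m, φ.symm, ?_⟩
    rw [φ.symm.surjective.range_eq]
    exact Subgroup.closure_univ
  have h1 := free_prod e he
  have h2 := free_prod (E := PUnit) (m := m) (fun _ => 1) (by
    rw [eq_top_iff]; intro x _; rw [Subsingleton.elim x 1]; exact one_mem _)
  have e2 : FreeGroup (Fin 2) × PUnit ≃* FreeGroup (Fin 2) := MulEquiv.prodUnique
  have h3 : Adj (FreeGroup (Fin (2 + m))) (FreeGroup (Fin 2)) :=
    Or.inr (preforms_congr e2 (MulEquiv.refl _) h2)
  exact ⟨_, distLE_trans (distLE_of_adj (Or.inl h1)) (distLE_of_adj h3)⟩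

/-- If `A` is connected to the free groups, so is `A × E`. -/
theorem connected {A E : Type} [Group A] [Group E] [Finite E] {l : ℕ}
    (h : DistLE l A (FreeGroup (Fin 2))) : ∃ l', DistLE l' (A × E) (FreeGroup (Fin 2)) := by
  obtain ⟨b, hb⟩ := distLE_free_prod (E := E)
  exact ⟨_, distLE_trans (distLE_prod h) hb⟩

theorem a5_perfect : commutator (alternatingGroup (Fin 5)) = ⊤ :=
  commutator_alternatingGroup_eq_top (by simp)

theorem a5_center : Subgroup.center (alternatingGroup (Fin 5)) = ⊥ := by
  rcases (inferInstance : (Subgroup.center (alternatingGroup (Fin 5))).Normal).eq_bot_or_eq_top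
    with h | h
  · exact h
  · exfalso
    have h1 : commutator (alternatingGroup (Fin 5)) = ⊥ := by
      rw [commutator_def, Subgroup.commutator_eq_bot_iff_le_centralizer,
        Subgroup.coe_top, Subgroup.centralizer_univ, h]
    rw [a5_perfect] at h1
    exact top_ne_bot h1

end Pool.Agent.H79Pre
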