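import Pool.Agent.H79Pre.Defs

set_option autoImplicit false

open Filter

namespace Pool.Agent.H79Pre

theorem lift_comp {k : ℕ} {G E : Type} [Group G] [Group E] (f : G →* E) (s : Fin k → G) :
    f.comp (FreeGroup.lift s) = FreeGroup.lift (fun i => f (s i)) := by
  apply FreeGroup.ext_hom
  intro i
  simp

theorem lift_surj {k : ℕ} {H : Type} [Group H] {t : Fin k → H}
    (ht : Subgroup.closure (Set.range t) = ⊤) : Function.Surjective (FreeGroup.lift t) := by
  rw [← MonoidHom.range_eq_top, FreeGroup.range_lift_eq_closure]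
  exact ht

theorem core_onto {G H E : Type} [Group G] [Group H] [Group E] [Finite E] {k : ℕ}
    {t : Fin k → H} {s : ℕ → Fin k → G} (ht : Subgroup.closure (Set.range t) = ⊤)
    (hs : ∀ n, Subgroup.closure (Set.range (s n)) = ⊤)
    (hw : ∀ w : FreeGroup (Fin k), ∀ᶠ n in atTop,
      (FreeGroup.lift (s n) w = 1 ↔ FreeGroup.lift t w = 1))
    {f : G →* E} (hf : Function.Surjective f) : ∃ g : H →* E, Function.Surjective g := by
  classical
  obtain ⟨e, he⟩ := Finite.exists_infinite_fiber (fun n : ℕ => fun i : Fin k => f (s n i))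
  have he' : ∃ᶠ n in atTop, (fun i : Fin k => f (s n i)) = e := by
    rw [Nat.frequently_atTop_iff_infinite]
    exact Set.infinite_coe_iff.1 he
  have hk : ∀ w : FreeGroup (Fin k), FreeGroup.lift t w = 1 → FreeGroup.lift e w = 1 := by
    intro w h1
    obtain ⟨n, h2, h3⟩ := (he'.and_eventually (hw w)).exists
    have h4 : FreeGroup.lift (s n) w = 1 := h3.2 h1
    rw [← h2, ← lift_comp, MonoidHom.comp_apply, h4, map_one]
  have hle : (FreeGroup.lift t).ker ≤ (FreeGroup.lift e).ker := by
    intro w h1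
    rw [MonoidHom.mem_ker] at h1 ⊢
    exact hk w h1
  refine ⟨(FreeGroup.lift t).liftOfSurjective (lift_surj ht) ⟨FreeGroup.lift e, hle⟩, ?_⟩
  intro x
  obtain ⟨n, h2⟩ := he'.exists
  obtain ⟨y, hy⟩ := hf x
  obtain ⟨w, hw'⟩ := lift_surj (hs n) y
  refine ⟨FreeGroup.lift t w, ?_⟩
  have h5 : (FreeGroup.lift t).liftOfSurjective (lift_surj ht) ⟨FreeGroup.lift e, hle⟩
      (FreeGroup.lift t w) = FreeGroup.lift e w :=
    MonoidHom.liftOfRightInverse_comp_apply _ _ _ ⟨FreeGroup.lift e, hle⟩ w
  rw [h5, ← h2, ← lift_comp, MonoidHom.comp_apply, hw', hy]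

theorem core_solvable {G H : Type} [Group G] [Group H] {k : ℕ}
    {t : Fin k → H} {s : ℕ → Fin k → G} (ht : Subgroup.closure (Set.range t) = ⊤)
    (hw : ∀ w : FreeGroup (Fin k), ∀ᶠ n in atTop,
      (FreeGroup.lift (s n) w = 1 ↔ FreeGroup.lift t w = 1))
    (hG : Group.IsSolvable G) : Group.IsSolvable H := by
  obtain ⟨d, hd⟩ := hG.solvable
  refine ⟨⟨d, ?_⟩⟩
  rw [← map_derivedSeries_eq (lift_surj ht), eq_bot_iff]
  rintro x ⟨w, h1, rfl⟩
  rw [Subgroup.mem_bot]
  obtain ⟨n, h2⟩ := (hw w).exists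
  apply h2.1
  have h3 : FreeGroup.lift (s n) w ∈ derivedSeries G d :=
    map_derivedSeries_le_derivedSeries (FreeGroup.lift (s n)) d ⟨w, h1, rfl⟩
  rw [hd] at h3
  exact (Subgroup.mem_bot).1 h3

theorem onto_of_preforms {G H E : Type} [Group G] [Group H] [Group E] [Finite E]
    (h : Preforms G H) (hG : Onto G E) : Onto H E := by
  obtain ⟨f, hf⟩ := hG
  first
    | (obtain ⟨k, t, s, ht, hs, hw⟩ := h
       exact core_onto ht hs hw hf)
    | (obtain ⟨k, t, s, ht, hs, hw⟩ := h
       exact core_onto ht hs (fun w => Filter.eventually_atTop.2 (hw w)) hf)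
    | (obtain ⟨k, t, s, ht, hs, hw⟩ := h
       exact core_onto ht hs (fun w => (hw w).mono fun n h => h.symm) hf)
    | (obtain ⟨k, t, s, ht, hs, hw⟩ := h
       exact core_onto ht hs (fun w => Filter.eventually_atTop.2 ((hw w).imp fun N h n hn => (h n hn).symm)) hf)
    | (obtain ⟨k, t, ht, s, hs, hw⟩ := h
       exact core_onto ht hs hw hf)
    | (obtain ⟨k, t, ht, s, hs, hw⟩ := h
       exact core_onto ht hs (fun w => Filter.eventually_atTop.2 (hw w)) hf)
    | (obtain ⟨k, t, ht, s, hs, hw⟩ := h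
       exact core_onto ht hs (fun w => (hw w).mono fun n h => h.symm) hf)
    | (obtain ⟨k, t, ht, s, hs, hw⟩ := h
       exact core_onto ht hs (fun w => Filter.eventually_atTop.2 ((hw w).imp fun N h n hn => (h n hn).symm)) hf)
    | (obtain ⟨k, s, t, hs, ht, hw⟩ := h
       exact core_onto ht hs hw hf)
    | (obtain ⟨k, s, t, hs, ht, hw⟩ := h
       exact core_onto ht hs (fun w => Filter.eventually_atTop.2 (hw w)) hf)
    | (obtain ⟨k, s, t, hs, ht, hw⟩ := h
       exact core_onto ht hs (fun w => (hw w).mono fun n h => h.symm) hf)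
    | (obtain ⟨k, s, t, hs, ht, hw⟩ := h
       exact core_onto ht hs (fun w => Filter.eventually_atTop.2 ((hw w).imp fun N h n hn => (h n hn).symm)) hf)
    | (obtain ⟨k, s, t, ht, hs, hw⟩ := h
       exact core_onto ht hs hw hf)
    | (obtain ⟨k, s, t, ht, hs, hw⟩ := h
       exact core_onto ht hs (fun w => Filter.eventually_atTop.2 (hw w)) hf)
    | (obtain ⟨k, s, t, ht, hs, hw⟩ := h
       exact core_onto ht hs (fun w => (hw w).mono fun n h => h.symm) hf)
    | (obtain ⟨k, s, t, ht, hs, hw⟩ := h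
       exact core_onto ht hs (fun w => Filter.eventually_atTop.2 ((hw w).imp fun N h n hn => (h n hn).symm)) hf)

theorem solvable_of_preforms {G H : Type} [Group G] [Group H] (h : Preforms G H)
    (hG : IsSolvable G) : IsSolvable H := by
  first
    | (obtain ⟨k, t, s, ht, hs, hw⟩ := h
       exact core_solvable ht hw hG)
    | (obtain ⟨k, t, s, ht, hs, hw⟩ := h
       exact core_solvable ht (fun w => Filter.eventually_atTop.2 (hw w)) hG)
    | (obtain ⟨k, t, s, ht, hs, hw⟩ := h
       exact core_solvable ht (fun w => (hw w).mono fun n h => h.symm) hG)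
    | (obtain ⟨k, t, s, ht, hs, hw⟩ := h
       exact core_solvable ht (fun w => Filter.eventually_atTop.2 ((hw w).imp fun N h n hn => (h n hn).symm)) hG)
    | (obtain ⟨k, t, ht, s, hs, hw⟩ := h
       exact core_solvable ht hw hG)
    | (obtain ⟨k, t, ht, s, hs, hw⟩ := h
       exact core_solvable ht (fun w => Filter.eventually_atTop.2 (hw w)) hG)
    | (obtain ⟨k, t, ht, s, hs, hw⟩ := h
       exact core_solvable ht (fun w => (hw w).mono fun n h => h.symm) hG)
    | (obtain ⟨k, t, ht, s, hs, hw⟩ := h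
       exact core_solvable ht (fun w => Filter.eventually_atTop.2 ((hw w).imp fun N h n hn => (h n hn).symm)) hG)
    | (obtain ⟨k, s, t, hs, ht, hw⟩ := h
       exact core_solvable ht hw hG)
    | (obtain ⟨k, s, t, hs, ht, hw⟩ := h
       exact core_solvable ht (fun w => Filter.eventually_atTop.2 (hw w)) hG)
    | (obtain ⟨k, s, t, hs, ht, hw⟩ := h
       exact core_solvable ht (fun w => (hw w).mono fun n h => h.symm) hG)
    | (obtain ⟨k, s, t, hs, ht, hw⟩ := h
       exact core_solvable ht (fun w => Filter.eventually_atTop.2 ((hw w).imp fun N h n hn => (h n hn).symm)) hG)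
    | (obtain ⟨k, s, t, ht, hs, hw⟩ := h
       exact core_solvable ht hw hG)
    | (obtain ⟨k, s, t, ht, hs, hw⟩ := h
       exact core_solvable ht (fun w => Filter.eventually_atTop.2 (hw w)) hG)
    | (obtain ⟨k, s, t, ht, hs, hw⟩ := h
       exact core_solvable ht (fun w => (hw w).mono fun n h => h.symm) hG)
    | (obtain ⟨k, s, t, ht, hs, hw⟩ := h
       exact core_solvable ht (fun w => Filter.eventually_atTop.2 ((hw w).imp fun N h n hn => (h n hn).symm)) hG)

end Pool.Agent.H79Pre
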